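import Pool.Agent.H741.EL.Stm
import Pool.Graph.R_pool_sql_team_seeded_3997aac3.Q188.Str.Basic

/-!
# Project EL of helper741, part HALF: a half ellipse is not optimal
-/

set_option autoImplicit false
open MeasureTheory Metric Set Filter Topology

namespace Pool.Agent.H367.EL
open Pool.Agent.Y508 Pool.Agent.H741.EL

/-- coordinates in the rotated frame -/
noncomputable def rot (ν : ℝ) : E2 →ₗ[ℝ] E2 where
  toFun y := pt (ip y ν) (ip y (ν + Real.pi / 2))
  map_add' x y := by
    ext i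
    fin_cases i
    · simp [ip_add]
    · simp [ip_add]
  map_smul' c x := by
    ext i
    fin_cases i
    · simp [ip_smul]
    · simp [ip_smul]

lemma rot_zero (ν : ℝ) (y : E2) : rot ν y 0 = ip y ν := rfl
lemma rot_one (ν : ℝ) (y : E2) : rot ν y 1 = ip y (ν + Real.pi / 2) := rfl

lemma ip_quarter (y : E2) (ν : ℝ) :
    ip y (ν + Real.pi / 2) = - y 0 * Real.sin ν + y 1 * Real.cos ν := by
  unfold ip
  rw [Real.cos_add_pi_div_two, Real.sin_add_pi_div_two]
  ring

lemma norm_rot (ν : ℝ) (y : E2) : ‖rot ν y‖ = ‖y‖ := by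
  have h : ‖rot ν y‖ ^ 2 = ‖y‖ ^ 2 := by
    rw [norm_sq_E2, norm_sq_E2, rot_zero, rot_one, ip_quarter]
    unfold ip
    have := Real.sin_sq_add_cos_sq ν
    linear_combination (y 0 ^ 2 + y 1 ^ 2) * this
  exact (sq_eq_sq₀ (norm_nonneg _) (norm_nonneg _)).mp h

/-- the rotation as an isometry -/
noncomputable def rotI (ν : ℝ) : E2 ≃ₗᵢ[ℝ] E2 :=
  LinearIsometry.toLinearIsometryEquiv ⟨rot ν, norm_rot ν⟩ rfl

lemma rotI_apply (ν : ℝ) (y : E2) : rotI ν y = rot ν y := rfl

/-- the open rectangle -/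
def rect (ν c d : ℝ) : Set E2 :=
  {y | ip y ν ∈ Ioo (-c) 0 ∧ ip y (ν + Real.pi / 2) ∈ Ioo (-d) d}

lemma vol_box (c d : ℝ) :
    volume {y : E2 | y 0 ∈ Ioo (-c) 0 ∧ y 1 ∈ Ioo (-d) d} =
      ENNReal.ofReal c * ENNReal.ofReal (2 * d) := by
  have h := (PiLp.volume_preserving_ofLp (ι := Fin 2)).measure_preimage
    (s := Set.pi univ fun i => Ioo ((![-c, -d] : Fin 2 → ℝ) i) ((![0, d] : Fin 2 → ℝ) i))
    (MeasurableSet.univ_pi fun i => measurableSet_Ioo).nullMeasurableSet
  rw [Real.volume_pi_Ioo] at h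
  have e : (@WithLp.ofLp 2 (Fin 2 → ℝ)) ⁻¹'
      (Set.pi univ fun i => Ioo ((![-c, -d] : Fin 2 → ℝ) i) ((![0, d] : Fin 2 → ℝ) i)) =
      {y : E2 | y 0 ∈ Ioo (-c) 0 ∧ y 1 ∈ Ioo (-d) d} := by
    ext y
    simp [Set.mem_pi, Fin.forall_fin_two]
  rw [e] at h
  rw [h, Fin.prod_univ_two]
  congr 1
  · simp
  · congr 1
    simp
    ring

lemma meas_box (c d : ℝ) : MeasurableSet {y : E2 | y 0 ∈ Ioo (-c) 0 ∧ y 1 ∈ Ioo (-d) d} := by
  have h0 : Measurable fun y : E2 => y 0 := by fun_prop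
  have h1 : Measurable fun y : E2 => y 1 := by fun_prop
  exact (h0 measurableSet_Ioo).inter (h1 measurableSet_Ioo)

lemma rect_eq (ν c d : ℝ) :
    rect ν c d = (rotI ν) ⁻¹' {y : E2 | y 0 ∈ Ioo (-c) 0 ∧ y 1 ∈ Ioo (-d) d} := rfl

lemma meas_rect (ν c d : ℝ) : MeasurableSet (rect ν c d) := by
  rw [rect_eq]
  exact (rotI ν).continuous.measurable (meas_box c d)

lemma vol_rect (ν c d : ℝ) (hc : 0 ≤ c) (hd : 0 ≤ d) : volume.real (rect ν c d) = c * (2 * d) := by
  have h : volume (rect ν c d) = ENNReal.ofReal c * ENNReal.ofReal (2 * d) := by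
    rw [rect_eq, (rotI ν).measurePreserving.measure_preimage (meas_box c d).nullMeasurableSet,
      vol_box]
  rw [Measure.real, h, ENNReal.toReal_mul, ENNReal.toReal_ofReal hc,
    ENNReal.toReal_ofReal (by positivity)]

/-- reconstruction of a point from its coordinates in the rotated frame -/
lemma recon (ν : ℝ) (y : E2) :
    y = ip y ν • ev ν + ip y (ν + Real.pi / 2) • ev (ν + Real.pi / 2) := by
  have := Real.sin_sq_add_cos_sq ν
  ext i
  fin_cases i
  · simp only [Fin.zero_eta, PiLp.add_apply, PiLp.smul_apply, ev_zero, smul_eq_mul, ip_quarter,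
      Real.cos_add_pi_div_two]
    unfold ip
    linear_combination (- y 0) * this
  · simp only [Fin.mk_one, PiLp.add_apply, PiLp.smul_apply, ev_one, smul_eq_mul, ip_quarter,
      Real.sin_add_pi_div_two]
    unfold ip
    linear_combination (- y 1) * this

lemma smul_ev_mem {a b : ℝ} (hb : 0 < b) (hab : b ≤ a) {r : ℝ} (hr : |r| ≤ b) (θ : ℝ) :
    r • ev θ ∈ Ell a b := by
  have ha : 0 < a := hb.trans_le hab
  have h1 : (r / a) ^ 2 ≤ 1 := by
    rw [div_pow, div_le_one (by positivity)]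
    exact sq_le_sq' (by linarith [neg_abs_le r]) (by linarith [le_abs_self r])
  have h2 : (r / b) ^ 2 ≤ 1 := by
    rw [div_pow, div_le_one (by positivity)]
    exact sq_le_sq' (by linarith [neg_abs_le r]) (by linarith [le_abs_self r])
  have h3 : (r • ev θ) 0 = r * Real.cos θ := by simp
  have h4 : (r • ev θ) 1 = r * Real.sin θ := by simp
  change ((r • ev θ) 0 / a) ^ 2 + ((r • ev θ) 1 / b) ^ 2 ≤ 1
  rw [h3, h4]
  have e1 : (r * Real.cos θ / a) ^ 2 = (r / a) ^ 2 * Real.cos θ ^ 2 := by ring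
  have e2 : (r * Real.sin θ / b) ^ 2 = (r / b) ^ 2 * Real.sin θ ^ 2 := by ring
  rw [e1, e2]
  have := Real.sin_sq_add_cos_sq θ
  nlinarith [sq_nonneg (Real.cos θ), sq_nonneg (Real.sin θ)]

theorem t_HALF (h1 : S_ELL) : S_HALF := by
  rintro a b p K hK ⟨ν, hν⟩
  obtain ⟨hbodyE, -, -, -, -, -, -, -⟩ := h1 a b hK.hb hK.hab
  have hb := hK.hb
  have hab := hK.hab
  have hB := hK.body
  have hW : 0 < W K := W_pos hB
  have ha : 0 < a := hb.trans_le hab
  -- points of the disc in `K`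
  have hpm : ∀ r : ℝ, |r| ≤ b → r • ev (ν + Real.pi / 2) ∈ K := by
    intro r hr
    rw [hν]
    refine ⟨smul_ev_mem hb hab hr _, ?_⟩
    rw [ip_smul, ip_ev]
    rw [show ν - (ν + Real.pi / 2) = -(Real.pi / 2) by ring, Real.cos_neg, Real.cos_pi_div_two]
    simp
  have h0 : (0 : E2) ∈ K := by
    have := hpm 0 (by rw [abs_zero]; exact hb.le)
    rwa [zero_smul] at this
  have hh0 : ∀ θ, 0 ≤ hs K θ := by
    intro θ
    have := le_hs hB.cpt h0 θ
    simpa [ip] using this
  have hhs : ∀ θ, b * |Real.sin (θ - ν)| ≤ hs K θ := by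
    intro θ
    have e1 := le_hs hB.cpt (hpm b (by rw [abs_of_pos hb])) θ
    have e2 := le_hs hB.cpt (hpm (-b) (by rw [abs_neg, abs_of_pos hb])) θ
    rw [ip_smul, ip_ev, show θ - (ν + Real.pi / 2) = (θ - ν) - Real.pi / 2 by ring,
      Real.cos_sub_pi_div_two] at e1 e2
    rcases abs_cases (Real.sin (θ - ν)) with h | h
    · rw [h.1]; exact e1
    · rw [h.1]; linarith
  -- the family of sets
  set z : ℝ → E2 := fun ζ => (-ζ) • ev ν with hz
  set K' : ℝ → Set E2 := fun ζ => convexHull ℝ (insert (z ζ) K) with hK'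
  have hbody : ∀ ζ, Body (K' ζ) := fun ζ => Q188.Str.body_hull hB (z ζ)
  have hKK' : ∀ ζ, K ⊆ K' ζ := fun ζ => (subset_insert _ _).trans (subset_convexHull _ _)
  have hzK' : ∀ ζ, z ζ ∈ K' ζ := fun ζ => subset_convexHull _ _ (mem_insert _ _)
  have hsubE : ∀ ζ, |ζ| ≤ b → K' ζ ⊆ Ell a b := by
    intro ζ hζ
    apply convexHull_min _ hbodyE.cvx
    apply insert_subset _ hK.sub
    exact smul_ev_mem hb hab (by rwa [abs_neg]) _
  -- the area
  have harea : ∀ ζ, 0 < ζ → AA a b + ζ * b / 2 ≤ volume.real (K' ζ) := by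
    intro ζ hζ
    have hsub : K ∪ rect ν (ζ / 2) (b / 2) ⊆ K' ζ := by
      apply union_subset (hKK' ζ)
      rintro y ⟨⟨hy1, hy2⟩, hy3, hy4⟩
      set α := ip y ν with hα
      set β := ip y (ν + Real.pi / 2) with hβ
      have hx1 : b • ev (ν + Real.pi / 2) ∈ K' ζ := hKK' ζ (hpm b (by rw [abs_of_pos hb]))
      have hx2 : (-b) • ev (ν + Real.pi / 2) ∈ K' ζ :=
        hKK' ζ (hpm (-b) (by rw [abs_neg, abs_of_pos hb]))
      have hv0 : 0 < -α / ζ := by
        apply div_pos _ hζ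
        linarith
      have hv1 : -α / ζ < 1 / 2 := by
        rw [div_lt_iff₀ hζ]
        linarith
      have hu1 : β / b < 1 / 2 := by
        rw [div_lt_iff₀ hb]
        linarith
      have hu2 : -(1 / 2) < β / b := by
        rw [lt_div_iff₀ hb]
        linarith
      have hc := (hbody ζ).cvx
      have key := hc.sum_mem (t := (Finset.univ : Finset (Fin 3)))
        (w := ![-α / ζ, (1 - -α / ζ + β / b) / 2, (1 - -α / ζ - β / b) / 2])
        (z := ![z ζ, b • ev (ν + Real.pi / 2), (-b) • ev (ν + Real.pi / 2)])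
        (by
          intro i _
          fin_cases i
          · simpa using hv0.le
          · simp; linarith
          · simp; linarith)
        (by
          rw [Fin.sum_univ_three]
          simp
          ring)
        (by
          intro i _
          fin_cases i
          · exact hzK' ζ
          · exact hx1
          · exact hx2)
      rw [Fin.sum_univ_three] at key
      have e : y = (![-α / ζ, (1 - -α / ζ + β / b) / 2, (1 - -α / ζ - β / b) / 2] : Fin 3 → ℝ) 0 •
            (![z ζ, b • ev (ν + Real.pi / 2), (-b) • ev (ν + Real.pi / 2)] : Fin 3 → E2) 0 +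
          (![-α / ζ, (1 - -α / ζ + β / b) / 2, (1 - -α / ζ - β / b) / 2] : Fin 3 → ℝ) 1 •
            (![z ζ, b • ev (ν + Real.pi / 2), (-b) • ev (ν + Real.pi / 2)] : Fin 3 → E2) 1 +
          (![-α / ζ, (1 - -α / ζ + β / b) / 2, (1 - -α / ζ - β / b) / 2] : Fin 3 → ℝ) 2 •
            (![z ζ, b • ev (ν + Real.pi / 2), (-b) • ev (ν + Real.pi / 2)] : Fin 3 → E2) 2 := by
        change y = (-α / ζ) • ((-ζ) • ev ν) +
          ((1 - -α / ζ + β / b) / 2) • (b • ev (ν + Real.pi / 2)) +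
          ((1 - -α / ζ - β / b) / 2) • ((-b) • ev (ν + Real.pi / 2))
        have hr := recon ν y
        rw [← hα, ← hβ] at hr
        rw [smul_smul, smul_smul, smul_smul, add_assoc, ← add_smul]
        rw [show -α / ζ * -ζ = α by field_simp,
          show (1 - -α / ζ + β / b) / 2 * b + (1 - -α / ζ - β / b) / 2 * -b = β by
            field_simp
            ring]
        exact hr
      rw [e]
      exact key
    have hdisj : Disjoint K (rect ν (ζ / 2) (b / 2)) := by
      rw [Set.disjoint_left]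
      rintro y hy ⟨⟨_, hy2⟩, _⟩
      rw [hν] at hy
      exact absurd hy.2 (not_le.mpr hy2)
    have hfin : volume (K' ζ) ≠ ⊤ := (hbody ζ).cpt.measure_ne_top
    have hfin2 : volume (rect ν (ζ / 2) (b / 2)) ≠ ⊤ :=
      ne_top_of_le_ne_top hfin (measure_mono (subset_union_right.trans hsub))
    calc AA a b + ζ * b / 2 = volume.real K + volume.real (rect ν (ζ / 2) (b / 2)) := by
          rw [hK.vol, vol_rect ν _ _ (by positivity) (by positivity)]
          ring
      _ = volume.real (K ∪ rect ν (ζ / 2) (b / 2)) := by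
          rw [measureReal_union hdisj (meas_rect _ _ _) hB.cpt.measure_ne_top hfin2]
      _ ≤ volume.real (K' ζ) := measureReal_mono hsub hfin
  -- the perimeter
  set D : ℝ → ℝ := fun ζ => ∫ θ in (0 : ℝ)..(2 * Real.pi), max (- Real.cos (θ - ν) - hs K θ / ζ) 0
    with hD
  have hWζ : ∀ ζ, 0 < ζ → W (K' ζ) = W K + ζ * D ζ := by
    intro ζ hζ
    have hc : Continuous fun θ : ℝ => max (- Real.cos (θ - ν) - hs K θ / ζ) 0 := by
      have := cont_hs hB.cpt
      fun_prop
    rw [hD]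
    simp only
    rw [← intervalIntegral.integral_const_mul]
    unfold W
    rw [← intervalIntegral.integral_add ((cont_hs hB.cpt).intervalIntegrable _ _)
      ((hc.const_mul ζ).intervalIntegrable _ _)]
    congr 1
    funext θ
    rw [Q188.Str.hs_hull hB (z ζ) θ]
    rw [hz]
    simp only
    rw [ip_smul, ip_ev]
    rw [mul_max_of_nonneg _ _ hζ.le, mul_zero, mul_sub, mul_div_cancel₀ _ hζ.ne']
    rcases le_total (hs K θ) (-ζ * Real.cos (θ - ν)) with h | h
    · rw [max_eq_right h, max_eq_left (by linarith)]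
      ring
    · rw [max_eq_left h, max_eq_right (by linarith)]
      ring
  have hD0 : ∀ ζ, 0 ≤ D ζ := by
    intro ζ
    apply intervalIntegral.integral_nonneg Real.two_pi_pos.le
    intro θ _
    exact le_max_right _ _
  have hDlim : Tendsto D (𝓝[>] 0) (𝓝 0) := by
    have hgoal : Tendsto D (𝓝[>] 0) (𝓝 (∫ θ in (0 : ℝ)..(2 * Real.pi), (fun _ : ℝ => (0 : ℝ)) θ)) →
        Tendsto D (𝓝[>] 0) (𝓝 0) := by
      intro h
      simpa using h
    apply hgoal
    rw [hD]
    apply intervalIntegral.tendsto_integral_filter_of_dominated_convergence (fun _ => (1 : ℝ))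
    · filter_upwards with ζ
      have hc : Continuous fun θ : ℝ => max (- Real.cos (θ - ν) - hs K θ / ζ) 0 := by
        have := cont_hs hB.cpt
        fun_prop
      exact hc.aestronglyMeasurable
    · filter_upwards [self_mem_nhdsWithin] with ζ hζ
      have hζ' : (0 : ℝ) < ζ := hζ
      filter_upwards with θ _
      rw [Real.norm_eq_abs, abs_of_nonneg (le_max_right _ _)]
      apply max_le _ zero_le_one
      have := Real.neg_one_le_cos (θ - ν)
      have h2 : 0 ≤ hs K θ / ζ := div_nonneg (hh0 θ) hζ'.le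
      linarith
    · exact intervalIntegrable_const
    · have hcount : {θ : ℝ | Real.sin (θ - ν) = 0}.Countable := by
        have : {θ : ℝ | Real.sin (θ - ν) = 0} ⊆ range fun n : ℤ => n * Real.pi + ν := by
          intro θ hθ
          obtain ⟨n, hn⟩ := Real.sin_eq_zero_iff.mp hθ
          exact ⟨n, by simp only; rw [hn]; ring⟩
        exact (countable_range _).mono this
      have hae : ∀ᵐ θ : ℝ, θ ∉ {θ : ℝ | Real.sin (θ - ν) = 0} :=
        hcount.ae_notMem volume
      filter_upwards [hae] with θ hθ _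
      have hsin : Real.sin (θ - ν) ≠ 0 := hθ
      have hpos : 0 < hs K θ := lt_of_lt_of_le (mul_pos hb (abs_pos.mpr hsin)) (hhs θ)
      apply tendsto_const_nhds.congr'
      have hev : ∀ᶠ ζ : ℝ in 𝓝[>] 0, ζ < hs K θ :=
        nhdsWithin_le_nhds (eventually_lt_nhds hpos)
      filter_upwards [hev, self_mem_nhdsWithin] with ζ h1 h2
      have h2' : (0 : ℝ) < ζ := h2
      rw [max_eq_right]
      have := Real.neg_one_le_cos (θ - ν)
      have h3 : 1 ≤ hs K θ / ζ := (one_le_div h2').mpr h1.le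
      linarith
  -- the choice of `ζ`
  have hAA : 0 < AA a b := by
    unfold AA
    positivity
  have hlim2 : Tendsto (fun ζ : ℝ => AA a b * (2 * W K * D ζ + ζ * D ζ ^ 2)) (𝓝[>] 0) (𝓝 0) := by
    have hid : Tendsto (fun ζ : ℝ => ζ) (𝓝[>] 0) (𝓝 0) := nhdsWithin_le_nhds
    have := ((hDlim.const_mul (2 * W K)).add (hid.mul (hDlim.pow 2))).const_mul (AA a b)
    simpa using this
  have hev1 : ∀ᶠ ζ : ℝ in 𝓝[>] 0, AA a b * (2 * W K * D ζ + ζ * D ζ ^ 2) < b / 2 * W K ^ 2 :=
    hlim2.eventually_lt_const (by positivity)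
  have hev2 : ∀ᶠ ζ : ℝ in 𝓝[>] 0, ζ < b := nhdsWithin_le_nhds (eventually_lt_nhds hb)
  obtain ⟨ζ, ⟨hζ1, hζ2⟩, hζ3⟩ := ((hev1.and hev2).and self_mem_nhdsWithin).exists
  have hζ : (0 : ℝ) < ζ := hζ3
  refine ⟨K' ζ, hbody ζ, hsubE ζ (by rw [abs_of_pos hζ]; exact hζ2.le), hKK' ζ hK.mem, ?_, ?_⟩
  · have := harea ζ hζ
    have : 0 < ζ * b / 2 := by positivity
    linarith
  · rw [hWζ ζ hζ]
    have hA := harea ζ hζ
    have hW2 : 0 < W K ^ 2 := by positivity
    calc AA a b * (W K + ζ * D ζ) ^ 2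
        = AA a b * W K ^ 2 + ζ * (AA a b * (2 * W K * D ζ + ζ * D ζ ^ 2)) := by ring
      _ < AA a b * W K ^ 2 + ζ * (b / 2 * W K ^ 2) := by
          have := mul_lt_mul_of_pos_left hζ1 hζ
          linarith
      _ = (AA a b + ζ * b / 2) * W K ^ 2 := by ring
      _ ≤ volume.real (K' ζ) * W K ^ 2 := mul_le_mul_of_nonneg_right hA hW2.le

end Pool.Agent.H367.EL

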